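import Pool.Agent.Helper81.SBA.Pr

/-!
# Orbifold Chern numbers of weighted symplectic line arrangements
-/

set_option autoImplicit false

open Finset Module

namespace Pool.Agent.Helper81.SBA

variable {m : ℕ}

/-- The square of the canonical class of the weighted arrangement: the weights `w i` are on the
lines, the points in `Bl` are blown up and the exceptional spheres have the weights `z j`. It is the
square of `(X - 3) H + ∑ j ∈ Bl, (1 + z j - S j) E j`, where `X` is the sum of all `w i` and `S j` is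
the sum of the `w i` over the lines through the point `j`. -/
noncomputable def orbCOneSq (l : List (Pt m)) (w : Fin (m + 1) → ℝ) (z : Fin l.length → ℝ)
    (Bl : Finset (Fin l.length)) : ℝ :=
  (∑ i, w i - 3) ^ 2 - ∑ j ∈ Bl, (1 + z j - ∑ i ∈ blk (l.get j), w i) ^ 2

/-- The Euler number of the weighted arrangement: the sum over the strata of the blown up complex
projective plane of their Euler number times the product of one minus the weights. The strata are
the complement of the lines, the lines without the points, the points that are not blown up, the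
exceptional spheres without their intersections with the lines, and these intersections. -/
noncomputable def orbCTwo (l : List (Pt m)) (w : Fin (m + 1) → ℝ) (z : Fin l.length → ℝ)
    (Bl : Finset (Fin l.length)) : ℝ :=
  (3 - 2 * (m + 1) + ∑ j : Fin l.length, (((l.get j).k : ℝ) - 1)) +
    ∑ i, (1 - w i) * (2 - ((univ.filter fun j : Fin l.length => i ∈ blk (l.get j)).card : ℝ)) +
    ∑ j ∈ univ \ Bl, ∏ i ∈ blk (l.get j), (1 - w i) +
    ∑ j ∈ Bl, (1 - z j) * ((2 - ((l.get j).k : ℝ)) + ∑ i ∈ blk (l.get j), (1 - w i))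

/-- exchange of the sums over lines and points -/
private theorem orb_diff_swap (l : List (Pt m)) (g : Fin (m + 1) → ℝ) :
    ∑ i, g i * ((univ.filter fun j : Fin l.length => i ∈ blk (l.get j)).card : ℝ) =
      ∑ j : Fin l.length, ∑ i ∈ blk (l.get j), g i := by
  have h1 : ∀ i : Fin (m + 1),
      g i * ((univ.filter fun j : Fin l.length => i ∈ blk (l.get j)).card : ℝ) =
      ∑ j : Fin l.length, if i ∈ blk (l.get j) then g i else 0 := by
    intro i
    rw [← sum_filter, sum_const, nsmul_eq_mul, mul_comm]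
  rw [Finset.sum_congr rfl fun i _ => h1 i, sum_comm]
  refine Finset.sum_congr rfl fun j _ => ?_
  rw [← sum_filter]
  refine Finset.sum_congr ?_ fun i _ => rfl
  ext i
  simp

/-- a double point -/
private theorem orb_diff_pair {P : Pt m} (hP : P.a + P.k ≤ m + 1) (h2 : P.k = 2)
    (w : Fin (m + 1) → ℝ) :
    ∏ i ∈ blk P, (1 - w i) = 1 - ∑ i ∈ blk P, w i + ∏ i ∈ blk P, w i := by
  obtain ⟨i, j, hij, hB⟩ := Finset.card_eq_two.1 ((card_blk P hP).trans h2)
  rw [hB, prod_pair hij, prod_pair hij, sum_pair hij]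
  ring

/-- The formula for the Euler number. -/
private theorem orb_diff_c2 {l : List (Pt m)} (hl : IsArr m l) (w : Fin (m + 1) → ℝ)
    (z : Fin l.length → ℝ) (Bl : Finset (Fin l.length)) (h2 : ∀ j, j ∉ Bl → (l.get j).k = 2) :
    orbCTwo l w z Bl = 3 + Bl.card - 2 * ∑ i, w i -
      ∑ j ∈ Bl, z j * (2 - ∑ i ∈ blk (l.get j), w i) +
      ∑ j ∈ univ \ Bl, ∏ i ∈ blk (l.get j), w i := by
  have hB : ∀ j : Fin l.length, (blk (l.get j)).card = (l.get j).k := fun j =>
    card_blk _ (hl.1 _ (List.get_mem l j)).2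
  have h3 : ∑ i : Fin (m + 1), (1 - w i) *
      (2 - ((univ.filter fun j : Fin l.length => i ∈ blk (l.get j)).card : ℝ)) =
      2 * (m + 1) - 2 * ∑ i, w i - ∑ j : Fin l.length, ((l.get j).k : ℝ) +
        ∑ j : Fin l.length, ∑ i ∈ blk (l.get j), w i := by
    have e1 : ∀ i : Fin (m + 1), (1 - w i) *
        (2 - ((univ.filter fun j : Fin l.length => i ∈ blk (l.get j)).card : ℝ)) =
        2 - 2 * w i - (1 : ℝ) * ((univ.filter fun j : Fin l.length => i ∈ blk (l.get j)).card : ℝ) +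
          w i * ((univ.filter fun j : Fin l.length => i ∈ blk (l.get j)).card : ℝ) := by
      intro i
      ring
    rw [Finset.sum_congr rfl fun i _ => e1 i, sum_add_distrib, sum_sub_distrib, sum_sub_distrib,
      orb_diff_swap l (fun _ => 1), orb_diff_swap l w, sum_const, card_univ, Fintype.card_fin,
      nsmul_eq_mul, ← mul_sum]
    have e2 : ∑ j : Fin l.length, ∑ i ∈ blk (l.get j), (1 : ℝ) =
        ∑ j : Fin l.length, ((l.get j).k : ℝ) := by
      refine Finset.sum_congr rfl fun j _ => ?_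
      rw [sum_const, hB j, nsmul_eq_mul, mul_one]
    rw [e2]
    push_cast
    ring
  have h4 : ∑ j ∈ univ \ Bl, ∏ i ∈ blk (l.get j), (1 - w i) =
      ((univ \ Bl).card : ℝ) - ∑ j ∈ univ \ Bl, ∑ i ∈ blk (l.get j), w i +
        ∑ j ∈ univ \ Bl, ∏ i ∈ blk (l.get j), w i := by
    have e1 : ∀ j ∈ univ \ Bl, ∏ i ∈ blk (l.get j), (1 - w i) =
        1 - ∑ i ∈ blk (l.get j), w i + ∏ i ∈ blk (l.get j), w i := by
      intro j hj
      rw [mem_sdiff] at hj
      exact orb_diff_pair (hl.1 _ (List.get_mem l j)).2 (h2 j hj.2) w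
    rw [Finset.sum_congr rfl e1, sum_add_distrib, sum_sub_distrib, sum_const, nsmul_eq_mul,
      mul_one]
  have h5 : ∑ j ∈ Bl, (1 - z j) * ((2 - ((l.get j).k : ℝ)) + ∑ i ∈ blk (l.get j), (1 - w i)) =
      2 * Bl.card - ∑ j ∈ Bl, ∑ i ∈ blk (l.get j), w i -
        ∑ j ∈ Bl, z j * (2 - ∑ i ∈ blk (l.get j), w i) := by
    have e1 : ∀ j ∈ Bl, (1 - z j) * ((2 - ((l.get j).k : ℝ)) + ∑ i ∈ blk (l.get j), (1 - w i)) =
        2 - ∑ i ∈ blk (l.get j), w i - z j * (2 - ∑ i ∈ blk (l.get j), w i) := by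
      intro j _
      rw [sum_sub_distrib, sum_const, hB j, nsmul_eq_mul, mul_one]
      ring
    rw [Finset.sum_congr rfl e1, sum_sub_distrib, sum_sub_distrib, sum_const, nsmul_eq_mul]
    ring
  have h6 : ∑ j ∈ univ \ Bl, ∑ i ∈ blk (l.get j), w i + ∑ j ∈ Bl, ∑ i ∈ blk (l.get j), w i =
      ∑ j : Fin l.length, ∑ i ∈ blk (l.get j), w i := sum_sdiff (subset_univ Bl)
  have h7 : ((univ \ Bl : Finset (Fin l.length)).card : ℝ) + Bl.card = l.length := by
    have := card_sdiff_add_card_eq_card (subset_univ Bl)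
    rw [card_univ, Fintype.card_fin] at this
    exact_mod_cast this
  have h8 : ∑ j : Fin l.length, (((l.get j).k : ℝ) - 1) =
      ∑ j : Fin l.length, ((l.get j).k : ℝ) - l.length := by
    rw [sum_sub_distrib, sum_const, card_univ, Fintype.card_fin, nsmul_eq_mul, mul_one]
  rw [orbCTwo, h3, h4, h5, h8]
  linarith

/-- PROOF. See `chern_c2` and `chern_diff` in `Pool/Agent/Helper8/PL/Chern.lean` (same statement for
wirings; copy that proof with `range W.M` replaced by `univ : Finset (Fin l.length)`, `W.B k` by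
`blk (l.get j)`, `W.mult k` by `(l.get j).k`, `card_B` by `card_blk`). -/
theorem orb_diff {l : List (Pt m)} (hl : IsArr m l) (w : Fin (m + 1) → ℝ) (z : Fin l.length → ℝ)
    (Bl : Finset (Fin l.length)) (h2 : ∀ j, j ∉ Bl → (l.get j).k = 2) :
    3 * orbCTwo l w z Bl - orbCOneSq l w z Bl = -(∑ i, w i) ^ 2 +
      ∑ j ∈ univ \ Bl, 3 * ∏ i ∈ blk (l.get j), w i +
      ∑ j ∈ Bl, (3 / 4 * (∑ i ∈ blk (l.get j), w i) ^ 2 +
        (z j - 2 + (∑ i ∈ blk (l.get j), w i) / 2) ^ 2) := by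
  rw [orb_diff_c2 hl w z Bl h2, orbCOneSq, ← mul_sum]
  have h3 : ∑ j ∈ Bl, (3 / 4 * (∑ i ∈ blk (l.get j), w i) ^ 2 +
      (z j - 2 + (∑ i ∈ blk (l.get j), w i) / 2) ^ 2) =
      3 * Bl.card - 3 * ∑ j ∈ Bl, z j * (2 - ∑ i ∈ blk (l.get j), w i) +
        ∑ j ∈ Bl, (1 + z j - ∑ i ∈ blk (l.get j), w i) ^ 2 := by
    have e1 : (3 : ℝ) * Bl.card = ∑ j ∈ Bl, (3 : ℝ) := by
      rw [sum_const, nsmul_eq_mul, mul_comm]
    rw [e1, mul_sum, ← sum_sub_distrib, ← sum_add_distrib]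
    refine Finset.sum_congr rfl fun j _ => ?_
    ring
  rw [h3]
  ring

private theorem v6_sq {n : ℕ} (u : Fin n → ℝ) :
    (∑ i, u i) ^ 2 = ∑ i, u i ^ 2 + ∑ x ∈ (univ : Finset (Fin n)).offDiag, u x.1 * u x.2 := by
  rw [sq, Finset.sum_mul_sum, ← Finset.sum_product', ← Finset.diag_union_offDiag,
    Finset.sum_union (Finset.disjoint_diag_offDiag _)]
  congr 1
  rw [Finset.sum_diag]
  exact Finset.sum_congr rfl fun i _ => (sq (u i)).symm

private theorem v6_blk {n : ℕ} (w : Fin n → ℝ) (B : Finset (Fin n)) :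
    (∑ i ∈ B, w i) ^ 2 - ∑ i ∈ B, w i ^ 2 =
      ∑ x ∈ (univ : Finset (Fin n)).offDiag,
        if x.1 ∈ B ∧ x.2 ∈ B then w x.1 * w x.2 else 0 := by
  have h1 := v6_sq (fun i => if i ∈ B then w i else 0)
  have h2 : ∑ i, (if i ∈ B then w i else 0) = ∑ i ∈ B, w i := by
    rw [← Finset.sum_filter, Finset.filter_mem_eq_inter, Finset.univ_inter]
  have h3 : ∑ i, (if i ∈ B then w i else 0) ^ 2 = ∑ i ∈ B, w i ^ 2 := by
    have h4 : ∀ i ∈ (univ : Finset (Fin n)), (if i ∈ B then w i else 0) ^ 2 =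
        if i ∈ B then w i ^ 2 else 0 := by
      intro i _
      split_ifs <;> simp
    rw [Finset.sum_congr rfl h4, ← Finset.sum_filter, Finset.filter_mem_eq_inter,
      Finset.univ_inter]
  rw [h2, h3] at h1
  rw [h1, add_sub_cancel_left]
  refine Finset.sum_congr rfl fun x _ => ?_
  by_cases h4 : x.1 ∈ B <;> by_cases h5 : x.2 ∈ B <;> simp [h4, h5]

/-- Every pair of lines meets in exactly one point.
PROOF. `(∑ w)² = ∑_i ∑_i' w_i w_i'`; the pairs `i ≠ i'` are distributed over the points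
(`pair_unique`; e.g. `1 = ∑ j, if i ∈ blk ∧ i' ∈ blk then 1 else 0` and exchange the sums), and
`(∑_{blk} w)² = ∑_{i, i' ∈ blk} w_i w_i'`. -/
theorem pairs_sq {l : List (Pt m)} (hl : IsArr m l) (w : Fin (m + 1) → ℝ) :
    (∑ i, w i) ^ 2 = ∑ i, w i ^ 2 +
      ∑ j : Fin l.length, ((∑ i ∈ blk (l.get j), w i) ^ 2 - ∑ i ∈ blk (l.get j), w i ^ 2) := by
  rw [v6_sq, Finset.sum_congr rfl fun j _ => v6_blk w (blk (l.get j)), Finset.sum_comm]
  congr 1
  refine Finset.sum_congr rfl fun x hx => ?_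
  obtain ⟨j, hj, hu⟩ := pair_unique hl x.1 x.2 (Finset.mem_offDiag.1 hx).2.2
  rw [Finset.sum_eq_single j]
  · rw [if_pos hj]
  · intro i _ hij
    rw [if_neg fun h' => hij (hu i h')]
  · intro h'
    exact absurd (Finset.mem_univ j) h'

private theorem v6_sum (a b c : ℝ) : ∀ l : List (Pt m), (∀ P ∈ l, 2 ≤ P.k ∧ P.k ≤ 4) →
    (l.map fun P => if P.k = 2 then a else if P.k = 3 then b else c).sum =
      a * tk l 2 + b * tk l 3 + c * tk l 4 := by
  intro l
  induction l with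
  | nil =>
    intro _
    simp [tk]
  | cons P l ih =>
    intro h
    have ih' := ih fun Q hQ => h Q (List.mem_cons_of_mem P hQ)
    have hP := h P List.mem_cons_self
    rw [List.map_cons, List.sum_cons, ih']
    unfold tk
    rw [List.countP_cons, List.countP_cons, List.countP_cons]
    have h3 : P.k = 2 ∨ P.k = 3 ∨ P.k = 4 := by omega
    rcases h3 with h3 | h3 | h3 <;> simp only [h3] <;> norm_num <;> ring

/-- Sums over the points. PROOF. `List` induction (`Fin.sum_univ_succ`, `List.countP_cons`), or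
`Fin.sum_univ_get` and `List` induction. -/
theorem sum_points (l : List (Pt m)) (h : ∀ P ∈ l, 2 ≤ P.k ∧ P.k ≤ 4) (a b c : ℝ) :
    ∑ j : Fin l.length, (if (l.get j).k = 2 then a else if (l.get j).k = 3 then b else c) =
      a * tk l 2 + b * tk l 3 + c * tk l 4 := by
  rw [← v6_sum a b c l h]
  exact Fin.sum_univ_fun_getElem l (fun P => if P.k = 2 then a else if P.k = 3 then b else c)

private theorem v7_term {l : List (Pt m)} (hl : IsArr m l) (h4 : ∀ P ∈ l, P.k ≤ 4)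
    (w : Fin (m + 1) → ℝ) (z : Fin l.length → ℝ) (Bl : Finset (Fin l.length))
    (h2 : ∀ j, j ∉ Bl → (l.get j).k = 2) {y : ℝ} (hy : 0 ≤ y) (hw1 : ∀ i, y ≤ w i)
    (j : Fin l.length) :
    (if (l.get j).k = 2 then y ^ 2 else if (l.get j).k = 3 then 3 / 4 * y ^ 2 else 0) ≤
      -((∑ i ∈ blk (l.get j), w i) ^ 2 - ∑ i ∈ blk (l.get j), w i ^ 2) +
      (if j ∈ Bl then (3 / 4 * (∑ i ∈ blk (l.get j), w i) ^ 2 +
        (z j - 2 + (∑ i ∈ blk (l.get j), w i) / 2) ^ 2) else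
          3 * ∏ i ∈ blk (l.get j), w i) := by
  have hP : l.get j ∈ l := List.get_mem l j
  have hk := hl.1 _ hP
  have hk4 := h4 _ hP
  have hc := card_blk (l.get j) hk.2
  by_cases hj : j ∈ Bl
  · rw [if_pos hj]
    have h1 : (∑ i ∈ blk (l.get j), w i) ^ 2 ≤
        ((l.get j).k : ℝ) * ∑ i ∈ blk (l.get j), w i ^ 2 := by
      have := sq_sum_le_card_mul_sum_sq (s := blk (l.get j)) (f := w)
      rwa [hc] at this
    have h3 : ((l.get j).k : ℝ) * y ^ 2 ≤ ∑ i ∈ blk (l.get j), w i ^ 2 := by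
      have : ∑ _i ∈ blk (l.get j), y ^ 2 ≤ ∑ i ∈ blk (l.get j), w i ^ 2 :=
        Finset.sum_le_sum fun i _ => pow_le_pow_left₀ hy (hw1 i) 2
      rwa [Finset.sum_const, hc, nsmul_eq_mul] at this
    have h5 := sq_nonneg (z j - 2 + (∑ i ∈ blk (l.get j), w i) / 2)
    have hk' : (l.get j).k = 2 ∨ (l.get j).k = 3 ∨ (l.get j).k = 4 := by omega
    rcases hk' with h | h | h
    · rw [if_pos h]
      rw [h] at h1 h3
      push_cast at h1 h3
      linarith
    · rw [if_neg (by omega), if_pos h]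
      rw [h] at h1 h3
      push_cast at h1 h3
      linarith
    · rw [if_neg (by omega), if_neg (by omega)]
      rw [h] at h1 h3
      push_cast at h1 h3
      linarith
  · rw [if_neg hj, if_pos (h2 j hj)]
    rw [h2 j hj] at hc
    obtain ⟨a, b, hab, hT⟩ := Finset.card_eq_two.1 hc
    rw [hT, Finset.sum_pair hab, Finset.sum_pair hab, Finset.prod_pair hab]
    have h3 := mul_le_mul (hw1 a) (hw1 b) hy (hy.trans (hw1 a))
    nlinarith

/-- The lower bound for almost equal weights.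
PROOF. `orb_diff`, `pairs_sq`. So the left side is `- ∑ w_i²` plus the sum over the points of
`3 ∏ w - S² + ∑_{blk} w²` (not blown up, `k = 2`, equal to `w_i w_i' ≥ y²`) or of
`(3/4) S² + (..)² - S² + ∑_{blk} w² ≥ ∑_{blk} w² - S²/4` (blown up): for `k = 2` it is
`(3/4) (w_i - w_i')² + w_i w_i' ≥ y²`, for `k = 3` it is `≥ (1/4) ∑_{blk} w² ≥ (3/4) y²`
(`inner_mul_le_norm_mul_norm` or `sq_sum_le_card_mul_sum_sq`: `S² ≤ k ∑ w²`), for `k = 4` it is `≥ 0`.
And `- ∑ w_i² ≥ - x² (m + 1)`. `sum_points` with `a = y²`, `b = (3/4) y²`, `c = 0`. -/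
theorem orb_lower {l : List (Pt m)} (hl : IsArr m l) (h4 : ∀ P ∈ l, P.k ≤ 4)
    (w : Fin (m + 1) → ℝ) (z : Fin l.length → ℝ) (Bl : Finset (Fin l.length))
    (h2 : ∀ j, j ∉ Bl → (l.get j).k = 2) {x y : ℝ} (hy : 0 ≤ y) (hw1 : ∀ i, y ≤ w i)
    (hw2 : ∀ i, w i ≤ x) :
    y ^ 2 * (tk l 2 + 3 / 4 * tk l 3) - x ^ 2 * (m + 1) ≤
      3 * orbCTwo l w z Bl - orbCOneSq l w z Bl := by
  have e1 := sum_points l (fun P hP => ⟨(hl.1 P hP).1, h4 P hP⟩) (y ^ 2) (3 / 4 * y ^ 2) 0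
  have e2 := Finset.sum_le_sum fun j (_ : j ∈ (univ : Finset (Fin l.length))) =>
    v7_term hl h4 w z Bl h2 hy hw1 j
  rw [e1, Finset.sum_add_distrib, Finset.sum_neg_distrib] at e2
  have e3 : ∑ j : Fin l.length, (if j ∈ Bl then (3 / 4 * (∑ i ∈ blk (l.get j), w i) ^ 2 +
        (z j - 2 + (∑ i ∈ blk (l.get j), w i) / 2) ^ 2) else
          3 * ∏ i ∈ blk (l.get j), w i) =
      ∑ j ∈ univ \ Bl, 3 * ∏ i ∈ blk (l.get j), w i +
      ∑ j ∈ Bl, (3 / 4 * (∑ i ∈ blk (l.get j), w i) ^ 2 +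
        (z j - 2 + (∑ i ∈ blk (l.get j), w i) / 2) ^ 2) := by
    rw [Finset.sum_ite, add_comm]
    congr 1
    · refine Finset.sum_congr ?_ fun _ _ => rfl
      ext j
      simp
    · refine Finset.sum_congr ?_ fun _ _ => rfl
      ext j
      simp
  rw [e3] at e2
  have e4 := pairs_sq hl w
  have e5 : ∑ i, w i ^ 2 ≤ x ^ 2 * (m + 1) := by
    have : ∑ i, w i ^ 2 ≤ ∑ _i : Fin (m + 1), x ^ 2 :=
      Finset.sum_le_sum fun i _ => pow_le_pow_left₀ (hy.trans (hw1 i)) (hw2 i) 2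
    rw [Finset.sum_const, Finset.card_univ, Fintype.card_fin, nsmul_eq_mul] at this
    push_cast at this
    linarith
  rw [orb_diff hl w z Bl h2]
  linarith

/-- The lower bound for constant weights `x` on the lines and `z` on the exceptional spheres.
PROOF. As `orb_lower`: with `w = x` the point `j` contributes: `k = 2`, not blown up: `3 x² - 4 x² +
2 x² = x²`; blown up with multiplicity `k`: `- (1/4) (k x)² + k x² + (z - 2 + k x / 2)²`, which is for
`k = 2`: `≥ x²`, `k = 3`: `(3/4) x² + (z - 2 + 3 x / 2)²`, `k = 4`: `(z - 2 + 2 x)²`. -/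
theorem orb_const {l : List (Pt m)} (hl : IsArr m l) (h4 : ∀ P ∈ l, P.k ≤ 4) (x z : ℝ)
    (Bl : Finset (Fin l.length)) (h2 : ∀ j, j ∉ Bl → (l.get j).k = 2) :
    x ^ 2 * (tk l 2 - (m + 1)) + (3 / 4 * x ^ 2 + (z - 2 + 3 / 2 * x) ^ 2) * tk l 3 +
      (z - 2 + 2 * x) ^ 2 * tk l 4 ≤
      3 * orbCTwo l (fun _ => x) (fun _ => z) Bl - orbCOneSq l (fun _ => x) (fun _ => z) Bl := by
  classical
  have hk : ∀ j : Fin l.length, (blk (l.get j)).card = (l.get j).k := fun j =>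
    card_blk _ (hl.1 _ (List.get_mem l j)).2
  have hk2 : ∀ j : Fin l.length, 2 ≤ (l.get j).k ∧ (l.get j).k ≤ 4 := fun j =>
    ⟨(hl.1 _ (List.get_mem l j)).1, h4 _ (List.get_mem l j)⟩
  rw [orb_diff hl _ _ _ h2, pairs_sq hl]
  simp only [Finset.prod_const, Finset.sum_const, nsmul_eq_mul, hk, Finset.card_univ,
    Fintype.card_fin]
  have e1 : ∑ j ∈ univ \ Bl, 3 * x ^ (l.get j).k =
      ∑ j ∈ univ \ Bl, (if j ∈ Bl then 3 / 4 * (((l.get j).k : ℝ) * x) ^ 2 +
        (z - 2 + ((l.get j).k : ℝ) * x / 2) ^ 2 else 3 * x ^ 2) := by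
    refine Finset.sum_congr rfl fun j hj => ?_
    have hj' : j ∉ Bl := (Finset.mem_sdiff.1 hj).2
    rw [if_neg hj', h2 j hj']
  have e2 : ∑ j ∈ Bl, (3 / 4 * (((l.get j).k : ℝ) * x) ^ 2 +
        (z - 2 + ((l.get j).k : ℝ) * x / 2) ^ 2) =
      ∑ j ∈ Bl, (if j ∈ Bl then 3 / 4 * (((l.get j).k : ℝ) * x) ^ 2 +
        (z - 2 + ((l.get j).k : ℝ) * x / 2) ^ 2 else 3 * x ^ 2) := by
    refine Finset.sum_congr rfl fun j hj => ?_
    rw [if_pos hj]
  rw [e1, e2]
  have e5 : ∑ j ∈ univ \ Bl, (if j ∈ Bl then 3 / 4 * (((l.get j).k : ℝ) * x) ^ 2 +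
        (z - 2 + ((l.get j).k : ℝ) * x / 2) ^ 2 else 3 * x ^ 2) +
      ∑ j ∈ Bl, (if j ∈ Bl then 3 / 4 * (((l.get j).k : ℝ) * x) ^ 2 +
        (z - 2 + ((l.get j).k : ℝ) * x / 2) ^ 2 else 3 * x ^ 2) =
      ∑ j, (if j ∈ Bl then 3 / 4 * (((l.get j).k : ℝ) * x) ^ 2 +
        (z - 2 + ((l.get j).k : ℝ) * x / 2) ^ 2 else 3 * x ^ 2) :=
    Finset.sum_sdiff (Finset.subset_univ Bl)
  have e3 := sum_points l (fun P hP => ⟨(hl.1 P hP).1, h4 P hP⟩) (x ^ 2)
    (3 / 4 * x ^ 2 + (z - 2 + 3 / 2 * x) ^ 2) ((z - 2 + 2 * x) ^ 2)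
  have e4 : ∑ j : Fin l.length, (if (l.get j).k = 2 then x ^ 2 else if (l.get j).k = 3 then
      3 / 4 * x ^ 2 + (z - 2 + 3 / 2 * x) ^ 2 else (z - 2 + 2 * x) ^ 2) ≤
      ∑ j : Fin l.length, ((if j ∈ Bl then 3 / 4 * (((l.get j).k : ℝ) * x) ^ 2 +
        (z - 2 + ((l.get j).k : ℝ) * x / 2) ^ 2 else 3 * x ^ 2) -
        ((((l.get j).k : ℝ) * x) ^ 2 - ((l.get j).k : ℝ) * x ^ 2)) := by
    refine Finset.sum_le_sum fun j _ => ?_
    by_cases hj : j ∈ Bl
    · rw [if_pos hj]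
      obtain ⟨h5, h6⟩ := hk2 j
      have h7 : (l.get j).k = 2 ∨ (l.get j).k = 3 ∨ (l.get j).k = 4 := by omega
      rcases h7 with h7 | h7 | h7
      · rw [if_pos h7, h7]
        push_cast
        nlinarith [sq_nonneg (z - 2 + 2 * x / 2)]
      · rw [if_neg (by omega), if_pos h7, h7]
        push_cast
        nlinarith
      · rw [if_neg (by omega), if_neg (by omega), h7]
        push_cast
        nlinarith
    · rw [if_neg hj, h2 j hj, if_pos rfl]
      push_cast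
      nlinarith
  rw [Finset.sum_sub_distrib] at e4
  push_cast
  linarith

end Pool.Agent.Helper81.SBA
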