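import Pool.Agent.Helper81.SBA.V.Tb
import Pool.Agent.Helper81.SBA.V.Ch

/-!
# The orbifold inequality for large symplectic line arrangements with at most quadruple points
-/

set_option autoImplicit false

open Finset Module

namespace Pool.Agent.Helper81.SBA

/-- An even number of lines.
PROOF. `N` from `T_even` with `ε = 1/200`: `T ≥ (299/200) d`, `t2 + (3/4) t3 ≥ (3/4) T ≥ (897/800) d`.
`orb_lower` with `y = (19/20) x`: the difference is at least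
`x² d ((361/400) (897/800) - 1) ≥ x² d / 100` (`361 * 897 = 323817`, `/ 320000 = 1.0119`). -/
theorem orb_even : ∃ N : ℕ, ∀ m : ℕ, N ≤ m → Even (m + 1) → ∀ l : List (Pt m), IsArr m l →
    (∀ P ∈ l, P.k ≤ 4) → ∀ x : ℝ, 0 < x → ∀ w : Fin (m + 1) → ℝ,
      (∀ i, 19 / 20 * x ≤ w i ∧ w i ≤ x) → ∀ (z : Fin l.length → ℝ) (Bl : Finset (Fin l.length)),
        (∀ j, j ∉ Bl → (l.get j).k = 2) →
          orbCOneSq l w z Bl + x ^ 2 * (m + 1) / 100 ≤ 3 * orbCTwo l w z Bl := by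
  obtain ⟨N, hN⟩ := T_even (1 / 200) (by norm_num)
  refine ⟨N, fun m hm he l hl hk x hx w hw z Bl hBl => ?_⟩
  have hT := hN m hm he l hl hk
  have h1 := orb_lower hl hk w z Bl hBl (x := x) (y := 19 / 20 * x) (by positivity)
    (fun i => (hw i).1) (fun i => (hw i).2)
  have hx2 : 0 < x ^ 2 := by positivity
  have ht2 : (0 : ℝ) ≤ (tk l 2 : ℝ) := Nat.cast_nonneg _
  have hd : (0 : ℝ) ≤ (m : ℝ) + 1 := by positivity
  have hS : 897 / 800 * ((m : ℝ) + 1) ≤ (tk l 2 : ℝ) + 3 / 4 * tk l 3 := by linarith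
  have h2 : x ^ 2 * (897 / 800 * ((m : ℝ) + 1)) ≤ x ^ 2 * ((tk l 2 : ℝ) + 3 / 4 * tk l 3) :=
    mul_le_mul_of_nonneg_left hS hx2.le
  have h3 : 0 ≤ x ^ 2 * ((m : ℝ) + 1) := mul_nonneg hx2.le hd
  have h4 : (19 / 20 * x) ^ 2 * ((tk l 2 : ℝ) + 3 / 4 * tk l 3) =
      361 / 400 * (x ^ 2 * ((tk l 2 : ℝ) + 3 / 4 * tk l 3)) := by ring
  rw [h4] at h1
  linarith

/-- An odd number of lines, constant weights.
PROOF. `N ≥ 2000` from `T_odd` with `ε = 1/100`: `T ≥ (347/300) d` with `d = m + 1`. Let `u = z - 2`. By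
`orb_const` the difference is at least `x² (t2 - d) + ((3/4) x² + (u + 3x/2)²) t3 + (u + 2x)² t4`.
If `|u + 2 x| ≤ x / 10`, then `u + 3x/2 ≤ - (2/5) x`, `(u + 3x/2)² ≥ (4/25) x²`, so it is at least
`x² ((91/100) T - d) ≥ x² d (0.91 * 1.1566 - 1) ≥ x² d / 100` (`0.91 * 347 / 300 = 1.0525`).
If not and `T ≥ 2 d`: it is at least `x² ((3/4) T - d) ≥ x² d / 2`. If not and `T ≤ 2 d`:
`(u + 2x)² ≥ x² / 100`, and `12 t4 = d (d - 1) - 2 t2 - 6 t3 ≥ d (d - 1) - 12 d` (`pairs_sum`,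
`sums_tk`), so it is at least `x² (t4 / 100 - d) ≥ x² d ((d - 13) / 1200 - 1) ≥ x² d / 100`. -/
theorem orb_odd : ∃ N : ℕ, ∀ m : ℕ, N ≤ m → Odd (m + 1) → ∀ l : List (Pt m), IsArr m l →
    (∀ P ∈ l, P.k ≤ 4) → ∀ x : ℝ, 0 < x → ∀ (z : ℝ) (Bl : Finset (Fin l.length)),
      (∀ j, j ∉ Bl → (l.get j).k = 2) →
        orbCOneSq l (fun _ => x) (fun _ => z) Bl + x ^ 2 * (m + 1) / 100 ≤
          3 * orbCTwo l (fun _ => x) (fun _ => z) Bl := by
  obtain ⟨N, hN⟩ := T_odd (1 / 100) (by norm_num)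
  refine ⟨max N 2000, fun m hm ho l hl hk x hx z Bl hBl => ?_⟩
  have hT := hN m (le_trans (le_max_left _ _) hm) ho l hl hk
  have hm2 : 2000 ≤ m := le_trans (le_max_right _ _) hm
  have h1 := orb_const hl hk x z Bl hBl
  obtain ⟨-, h3, -, -⟩ := sums_tk (l := l) fun P hP => ⟨(hl.1 P hP).1, hk P hP⟩
  have h5 := pairs_sum hl
  rw [h3] at h5
  have h6 : 2 * (tk l 2 : ℝ) + 6 * tk l 3 + 12 * tk l 4 = ((m : ℝ) + 1) * m := by
    exact_mod_cast h5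
  have hmr : (2000 : ℝ) ≤ (m : ℝ) := by exact_mod_cast hm2
  have ht2 : (0 : ℝ) ≤ (tk l 2 : ℝ) := Nat.cast_nonneg _
  have ht3 : (0 : ℝ) ≤ (tk l 3 : ℝ) := Nat.cast_nonneg _
  have ht4 : (0 : ℝ) ≤ (tk l 4 : ℝ) := Nat.cast_nonneg _
  obtain ⟨a, ha⟩ : ∃ a : ℝ, a = (tk l 2 : ℝ) := ⟨_, rfl⟩
  obtain ⟨b, hb⟩ : ∃ b : ℝ, b = (tk l 3 : ℝ) := ⟨_, rfl⟩
  obtain ⟨c, hc⟩ : ∃ c : ℝ, c = (tk l 4 : ℝ) := ⟨_, rfl⟩
  obtain ⟨d, hd⟩ : ∃ d : ℝ, d = (m : ℝ) + 1 := ⟨_, rfl⟩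
  have hdm : (m : ℝ) = d - 1 := by rw [hd]; ring
  rw [← ha, ← hb, ← hc] at h6 h1
  rw [← ha, ← hb] at hT
  rw [← ha] at ht2
  rw [← hb] at ht3
  rw [← hc] at ht4
  rw [hdm] at h6 hT h1 hmr ⊢
  have e1 : d - 1 + 1 = d := by ring
  rw [e1] at h6 hT h1 ⊢
  have hx2 : 0 < x ^ 2 := by positivity
  have key : x ^ 2 * d / 100 ≤ x ^ 2 * (a - d) + (3 / 4 * x ^ 2 + (z - 2 + 3 / 2 * x) ^ 2) * b +
      (z - 2 + 2 * x) ^ 2 * c := by
    have hq : 0 ≤ (z - 2 + 3 / 2 * x) ^ 2 * b := mul_nonneg (sq_nonneg _) ht3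
    have hr : 0 ≤ (z - 2 + 2 * x) ^ 2 * c := mul_nonneg (sq_nonneg _) ht4
    have hxd : 0 ≤ x ^ 2 * d := mul_nonneg hx2.le (by linarith)
    have hxa : 0 ≤ x ^ 2 * a := mul_nonneg hx2.le ht2
    have hxb : 0 ≤ x ^ 2 * b := mul_nonneg hx2.le ht3
    by_cases hcase : |z - 2 + 2 * x| ≤ x / 10
    · have h7 := (abs_le.1 hcase).2
      have h8 : 4 / 25 * x ^ 2 ≤ (z - 2 + 3 / 2 * x) ^ 2 := by nlinarith
      have h9 : 4 / 25 * x ^ 2 * b ≤ (z - 2 + 3 / 2 * x) ^ 2 * b :=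
        mul_le_mul_of_nonneg_right h8 ht3
      have h10 := mul_le_mul_of_nonneg_left hT hx2.le
      nlinarith
    · push Not at hcase
      have h7 : x ^ 2 / 100 ≤ (z - 2 + 2 * x) ^ 2 := by
        rw [← sq_abs (z - 2 + 2 * x)]
        nlinarith [abs_nonneg (z - 2 + 2 * x)]
      by_cases h8 : 2 * d ≤ a + b
      · have h9 := mul_le_mul_of_nonneg_left h8 hx2.le
        nlinarith
      · push Not at h8
        have h9 : d * (d - 13) ≤ 12 * c := by nlinarith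
        have h10 : x ^ 2 / 100 * c ≤ (z - 2 + 2 * x) ^ 2 * c :=
          mul_le_mul_of_nonneg_right h7 ht4
        have h11 : d * 1212 ≤ 12 * c := by
          have h12 : d * 1212 ≤ d * (d - 13) := by
            apply mul_le_mul_of_nonneg_left _ (by linarith)
            linarith
          linarith
        have h13 : x ^ 2 * (d * 1212) ≤ x ^ 2 * (12 * c) := mul_le_mul_of_nonneg_left h11 hx2.le
        nlinarith
  linarith

/-- **Main theorem.** For every `ε > 0` and every factorisation `Δ² = ∏ g_j T_{k_j} g_j⁻¹` of the full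
twist on `d = m + 1` strands, `d` large, into conjugates of full twists of `k_j ≤ 4` adjacent strands:
`t_2 + t_3 ≥ (3/2 - ε) d` for even `d` and `≥ (7/6 - ε) d` for odd `d`; the orbifold Chern numbers
satisfy `c_1² + x² d / 100 ≤ 3 c_2` for all real weights on the exceptional spheres and all weights
in `[19 x / 20, x]` on the lines if `d` is even, and for one weight `x` on the lines and one weight
`z` on the exceptional spheres if `d` is odd.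
PROOF. The maximum of the four `N`. -/
theorem main_orb (ε : ℝ) (hε : 0 < ε) : ∃ N : ℕ, ∀ m : ℕ, N ≤ m → ∀ l : List (Pt m), IsArr m l →
    (∀ P ∈ l, P.k ≤ 4) →
      (Even (m + 1) → (3 / 2 - ε) * (m + 1) ≤ (tk l 2 : ℝ) + tk l 3 ∧
        ∀ x : ℝ, 0 < x → ∀ w : Fin (m + 1) → ℝ, (∀ i, 19 / 20 * x ≤ w i ∧ w i ≤ x) →
          ∀ (z : Fin l.length → ℝ) (Bl : Finset (Fin l.length)),
            (∀ j, j ∉ Bl → (l.get j).k = 2) →
              orbCOneSq l w z Bl + x ^ 2 * (m + 1) / 100 ≤ 3 * orbCTwo l w z Bl) ∧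
      (Odd (m + 1) → (7 / 6 - ε) * (m + 1) ≤ (tk l 2 : ℝ) + tk l 3 ∧
        ∀ x : ℝ, 0 < x → ∀ (z : ℝ) (Bl : Finset (Fin l.length)),
          (∀ j, j ∉ Bl → (l.get j).k = 2) →
            orbCOneSq l (fun _ => x) (fun _ => z) Bl + x ^ 2 * (m + 1) / 100 ≤
              3 * orbCTwo l (fun _ => x) (fun _ => z) Bl) := by
  obtain ⟨N1, h1⟩ := T_even ε hε
  obtain ⟨N2, h2⟩ := T_odd ε hε
  obtain ⟨N3, h3⟩ := orb_even
  obtain ⟨N4, h4⟩ := orb_odd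
  refine ⟨max (max N1 N2) (max N3 N4), fun m hm l hl hk => ⟨fun he => ⟨?_, ?_⟩, fun ho => ⟨?_, ?_⟩⟩⟩
  · exact h1 m (le_trans (le_trans (le_max_left _ _) (le_max_left _ _)) hm) he l hl hk
  · exact h3 m (le_trans (le_trans (le_max_left _ _) (le_max_right _ _)) hm) he l hl hk
  · exact h2 m (le_trans (le_trans (le_max_right _ _) (le_max_left _ _)) hm) ho l hl hk
  · exact h4 m (le_trans (le_trans (le_max_right _ _) (le_max_right _ _)) hm) ho l hl hk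

end Pool.Agent.Helper81.SBA
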