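import Pool.Agent.Helper81.SBA.V.Df
import Pool.Agent.Helper81.SBA.V.Mn

/-!
# Comparison of the definitions
-/

set_option autoImplicit false

open Finset

namespace Pool.Agent.Helper81.SBA

variable {m : ℕ}

theorem strandPerm_eq (g : BraidGroup m) : strandPerm m g = perm m g := rfl

theorem linesOf_eq (P : Pt m) : linesOf P = blk P := rfl

theorem orbOneSq_eq (l : List (Pt m)) (w : Fin (m + 1) → ℝ) (z : Fin l.length → ℝ)
    (Bl : Finset (Fin l.length)) : orbOneSq l w z Bl = orbCOneSq l w z Bl := rfl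

theorem orbTwo_eq (l : List (Pt m)) (w : Fin (m + 1) → ℝ) (z : Fin l.length → ℝ)
    (Bl : Finset (Fin l.length)) : orbTwo l w z Bl = orbCTwo l w z Bl := rfl

end Pool.Agent.Helper81.SBA
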