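import Pool.Agent.Helper81.SBA.Def

/-!
# Orbifold Chern numbers of weighted symplectic line arrangements: definitions
-/

set_option autoImplicit false

open Finset

namespace Pool.Agent.Helper81.SBA

variable {m : ℕ}

/-- The permutation of the strands of a braid: `sigma i` exchanges `i` and `i + 1`. -/
def strandPerm (m : ℕ) : BraidGroup m →* Equiv.Perm (Fin (m + 1)) :=
  braidLift (fun i : Fin m => Equiv.swap i.castSucc i.succ)
    (by
      intro i j h
      have e : j.castSucc = i.succ := Fin.ext (by simp [h])
      have h1 : i.castSucc ≠ i.succ := by
        intro h2
        have := congrArg Fin.val h2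
        rw [Fin.val_castSucc, Fin.val_succ] at this
        omega
      have h2 : i.castSucc ≠ j.succ := by
        intro h2
        have := congrArg Fin.val h2
        rw [Fin.val_castSucc, Fin.val_succ] at this
        omega
      have h3 : j.succ ≠ i.succ := by
        intro h2
        have := congrArg Fin.val h2
        rw [Fin.val_succ, Fin.val_succ] at this
        omega
      rw [e, Equiv.swap_mul_swap_mul_swap h1 h2, Equiv.swap_comm i.castSucc i.succ,
        Equiv.swap_comm i.succ j.succ, Equiv.swap_mul_swap_mul_swap h3 h2.symm,
        Equiv.swap_comm])
    (by
      intro i j h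
      refine (Equiv.Perm.disjoint_swap_swap ?_).commute.eq
      simp only [List.nodup_cons, List.mem_cons, List.not_mem_nil, or_false, not_or, Fin.ext_iff,
        Fin.val_castSucc, Fin.val_succ, not_false_eq_true, List.nodup_nil, and_true]
      omega)

/-- The lines through a point: the strands `a, ..., a + k - 1` after the braid `g`. -/
def linesOf (P : Pt m) : Finset (Fin (m + 1)) :=
  (univ.filter fun t : Fin (m + 1) => P.a ≤ t.val ∧ t.val < P.a + P.k).map
    (strandPerm m P.g).toEmbedding

/-- The square of the canonical class of the weighted arrangement: the weights `w i` are on the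
lines, the points in `Bl` are blown up and the exceptional spheres have the weights `z j`. It is the
square of `(X - 3) H + ∑ j ∈ Bl, (1 + z j - S j) E j`, where `X` is the sum of all `w i` and `S j` is
the sum of the `w i` over the lines through the point `j`. -/
noncomputable def orbOneSq (l : List (Pt m)) (w : Fin (m + 1) → ℝ) (z : Fin l.length → ℝ)
    (Bl : Finset (Fin l.length)) : ℝ :=
  (∑ i, w i - 3) ^ 2 - ∑ j ∈ Bl, (1 + z j - ∑ i ∈ linesOf (l.get j), w i) ^ 2

/-- The Euler number of the weighted arrangement: the sum over the strata of the blown up complex
projective plane of their Euler number times the product of one minus the weights. The strata are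
the complement of the lines, the lines without the points, the points that are not blown up, the
exceptional spheres without their intersections with the lines, and these intersections. -/
noncomputable def orbTwo (l : List (Pt m)) (w : Fin (m + 1) → ℝ) (z : Fin l.length → ℝ)
    (Bl : Finset (Fin l.length)) : ℝ :=
  (3 - 2 * (m + 1) + ∑ j : Fin l.length, (((l.get j).k : ℝ) - 1)) +
    ∑ i, (1 - w i) * (2 - ((univ.filter fun j : Fin l.length => i ∈ linesOf (l.get j)).card : ℝ)) +
    ∑ j ∈ univ \ Bl, ∏ i ∈ linesOf (l.get j), (1 - w i) +
    ∑ j ∈ Bl, (1 - z j) * ((2 - ((l.get j).k : ℝ)) + ∑ i ∈ linesOf (l.get j), (1 - w i))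

end Pool.Agent.Helper81.SBA
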