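import Mathlib

/-!
# Codes with local recovery sets have small dimension
-/

set_option autoImplicit false

open Finset Module

namespace Pool.Agent.Helper81.SBA

section recov

variable {ι : Type} [Fintype ι] [DecidableEq ι]

/-- The number of maps `c : ι → Fin (q + 1)` that vanish on `Y`.
PROOF. `= (q + 1) ^ (card ι - card Y)`: the set is `Fintype.piFinset fun i => if i ∈ Y then {0} else univ`
(`Fintype.card_piFinset`, `Finset.prod_ite`, or induction on `Y`). -/
theorem rec_card (q : ℕ) (Y : Finset ι) :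
    (((univ : Finset (ι → Fin (q + 1))).filter fun c => ∀ i ∈ Y, c i = 0).card : ℝ) =
      (q + 1 : ℝ) ^ Fintype.card ι * (1 / (q + 1 : ℝ)) ^ Y.card := by
  classical
  have hq : (q + 1 : ℝ) ≠ 0 := by positivity
  have h1 : ((univ : Finset (ι → Fin (q + 1))).filter fun c => ∀ i ∈ Y, c i = 0) =
      Fintype.piFinset (fun i => if i ∈ Y then ({0} : Finset (Fin (q + 1))) else univ) := by
    ext c
    simp only [mem_filter, mem_univ, true_and, Fintype.mem_piFinset]
    constructor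
    · intro h i
      by_cases hi : i ∈ Y
      · simp [hi, h i hi]
      · simp [hi]
    · intro h i hi
      have := h i
      simpa [hi] using this
  rw [h1, Fintype.card_piFinset]
  push_cast
  have h2 : ∀ i : ι, (((if i ∈ Y then ({0} : Finset (Fin (q + 1))) else univ).card : ℕ) : ℝ) =
      (q + 1 : ℝ) * (if i ∈ Y then 1 / (q + 1 : ℝ) else 1) := by
    intro i
    by_cases hi : i ∈ Y
    · simp only [hi, if_true, card_singleton]
      push_cast
      field_simp
    · simp [hi]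
  rw [Finset.prod_congr rfl (fun i _ => h2 i), Finset.prod_mul_distrib, Finset.prod_const,
    Finset.card_univ]
  congr 1
  rw [Finset.prod_ite_mem, Finset.univ_inter, Finset.prod_const]

/-- The number of maps that do not vanish identically on any of the disjoint sets `B ∈ R`.
PROOF. The number is `∑ c, ∏ B ∈ R, (1 - [c = 0 on B])`; with `Finset.prod_add` (`f = -[..]`, `g = 1`)
this is `∑ S ∈ R.powerset, (-1) ^ |S| * #{c | c = 0 on the union of S}`, and by `rec_card` and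
disjointness (`Finset.card_biUnion`) `#{..} = (q+1)^n * ∏ B ∈ S, (1/(q+1)) ^ |B|`. By `Finset.prod_add`
again the number equals `(q+1)^n * ∏ B ∈ R, (1 - (1/(q+1)) ^ |B|)`, and each factor is at most
`1 - (1/(q+1)) ^ K` (`pow_le_pow_of_le_one`) and nonnegative. -/
theorem rec_indep (q K : ℕ) (R : Finset (Finset ι))
    (hd : ∀ B ∈ R, ∀ B' ∈ R, B ≠ B' → Disjoint B B') (hK : ∀ B ∈ R, B.card ≤ K) :
    (((univ : Finset (ι → Fin (q + 1))).filter fun c => ∀ B ∈ R, ∃ i ∈ B, c i ≠ 0).card : ℝ) ≤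
      (q + 1 : ℝ) ^ Fintype.card ι * (1 - (1 / (q + 1 : ℝ)) ^ K) ^ R.card := by
  classical
  have hq : (0 : ℝ) < (q + 1 : ℝ) := by positivity
  set w : ℝ := 1 / (q + 1 : ℝ) with hw
  have hw0 : 0 < w := by positivity
  have hw1 : w ≤ 1 := by
    rw [hw, div_le_one hq]
    linarith [(Nat.cast_nonneg q : (0 : ℝ) ≤ q)]
  -- indicator of vanishing on B
  have hprod : ∀ c : ι → Fin (q + 1),
      (if ∀ B ∈ R, ∃ i ∈ B, c i ≠ 0 then (1 : ℝ) else 0) =
        ∏ B ∈ R, (1 + -(if ∀ i ∈ B, c i = 0 then (1 : ℝ) else 0)) := by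
    intro c
    split_ifs with h
    · rw [Finset.prod_eq_one]
      intro B hB
      obtain ⟨i, hi, hci⟩ := h B hB
      rw [if_neg]
      · ring
      · intro h2
        exact hci (h2 i hi)
    · push Not at h
      obtain ⟨B, hB, h2⟩ := h
      symm
      apply Finset.prod_eq_zero hB
      rw [if_pos h2]
      ring
  have hsub : ∀ (S : Finset (Finset ι)) (c : ι → Fin (q + 1)),
      ∏ B ∈ S, -(if ∀ i ∈ B, c i = 0 then (1 : ℝ) else 0) =
        (-1) ^ S.card * (if ∀ i ∈ S.biUnion id, c i = 0 then (1 : ℝ) else 0) := by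
    intro S c
    have e1 : ∀ B ∈ S, -(if ∀ i ∈ B, c i = 0 then (1 : ℝ) else 0) =
        (-1) * (if ∀ i ∈ B, c i = 0 then (1 : ℝ) else 0) := fun B _ => by ring
    rw [Finset.prod_congr rfl e1, Finset.prod_mul_distrib, Finset.prod_const]
    congr 1
    split_ifs with h
    · rw [Finset.prod_eq_one]
      intro B hB
      rw [if_pos]
      intro i hi
      exact h i (Finset.mem_biUnion.mpr ⟨B, hB, hi⟩)
    · push Not at h
      obtain ⟨i, hi, hci⟩ := h
      obtain ⟨B, hB, hiB⟩ := Finset.mem_biUnion.mp hi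
      apply Finset.prod_eq_zero hB
      rw [if_neg]
      intro h2
      exact hci (h2 i hiB)
  have hcard : (((univ : Finset (ι → Fin (q + 1))).filter
      fun c => ∀ B ∈ R, ∃ i ∈ B, c i ≠ 0).card : ℝ) =
      (q + 1 : ℝ) ^ Fintype.card ι * ∏ B ∈ R, (1 + -(w ^ B.card)) := by
    rw [Finset.prod_one_add, Finset.mul_sum]
    rw [Finset.card_filter, Nat.cast_sum]
    have e2 : ∀ c : ι → Fin (q + 1),
        (((if ∀ B ∈ R, ∃ i ∈ B, c i ≠ 0 then 1 else 0 : ℕ) : ℕ) : ℝ) =
        ∑ S ∈ R.powerset, (-1) ^ S.card *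
          (if ∀ i ∈ S.biUnion id, c i = 0 then (1 : ℝ) else 0) := by
      intro c
      push_cast
      rw [hprod c, Finset.prod_one_add]
      exact Finset.sum_congr rfl (fun S _ => hsub S c)
    rw [Finset.sum_congr rfl (fun c _ => e2 c), Finset.sum_comm]
    apply Finset.sum_congr rfl
    intro S hS
    rw [← Finset.mul_sum]
    have e3 := rec_card q (S.biUnion id)
    rw [Finset.card_filter, Nat.cast_sum] at e3
    push_cast at e3
    rw [e3]
    have hSR : S ⊆ R := Finset.mem_powerset.mp hS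
    have e4 : (S.biUnion id).card = ∑ B ∈ S, B.card := by
      rw [Finset.card_biUnion]
      · rfl
      · intro B hB B' hB' hne
        exact hd B (hSR hB) B' (hSR hB') hne
    rw [e4, ← Finset.prod_pow_eq_pow_sum]
    have e5 : ∀ B ∈ S, -(w ^ B.card) = (-1) * w ^ B.card := fun B _ => by ring
    rw [Finset.prod_congr rfl e5, Finset.prod_mul_distrib, Finset.prod_const]
    ring
  rw [hcard]
  apply mul_le_mul_of_nonneg_left _ (by positivity)
  rw [← Finset.prod_const]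
  apply Finset.prod_le_prod
  · intro B _
    have : w ^ B.card ≤ 1 := pow_le_one₀ hw0.le hw1
    linarith
  · intro B hB
    have : w ^ K ≤ w ^ B.card := pow_le_pow_of_le_one hw0.le hw1 (hK B hB)
    linarith

private theorem recBound_inj (q : ℕ) (C : Submodule (ZMod 2) (ι → ZMod 2))
    (R : ι → Finset (Finset ι))
    (hC : ∀ j, ∀ B ∈ R j, ∀ x ∈ C, (∀ i ∈ B, x i = 0) → x j = 0) (c : ι → Fin (q + 1)) :
    (finrank (ZMod 2) C : ℝ) ≤ ((univ : Finset ι).filter fun i => c i = 0).card +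
      ((univ : Finset ι).filter fun j => ∀ B ∈ R j, ∃ i ∈ B, c i ≠ 0).card := by
  obtain ⟨T, hT⟩ : ∃ T : Finset ι, T = ((univ : Finset ι).filter fun i => c i = 0) ∪
    ((univ : Finset ι).filter fun j => ∀ B ∈ R j, ∃ i ∈ B, c i ≠ 0) := ⟨_, rfl⟩
  let φ : C →ₗ[ZMod 2] (T → ZMod 2) :=
    (LinearMap.funLeft (ZMod 2) (ZMod 2) (fun i : T => (i : ι))).comp C.subtype
  have hφ : Function.Injective φ := by
    rw [← LinearMap.ker_eq_bot, LinearMap.ker_eq_bot']
    intro x hx
    have h0 : ∀ i ∈ T, x.1 i = 0 := fun i hi => congrFun hx ⟨i, hi⟩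
    apply Subtype.ext
    funext j
    by_cases hj : j ∈ T
    · exact h0 j hj
    · have hj2 : ¬ ∀ B ∈ R j, ∃ i ∈ B, c i ≠ 0 := by
        intro h
        apply hj
        rw [hT]
        exact mem_union_right _ (by simpa using h)
      push Not at hj2
      obtain ⟨B, hB, hB0⟩ := hj2
      refine hC j B hB x.1 x.2 fun i hi => h0 i ?_
      rw [hT]
      exact mem_union_left _ (by simpa using hB0 i hi)
  have h1 := LinearMap.finrank_le_finrank_of_injective hφ
  rw [Module.finrank_fintype_fun_eq_card, Fintype.card_coe, hT] at h1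
  exact_mod_cast h1.trans (card_union_le _ _)

/-- PROOF. For a map `c : ι → Fin (q + 1)` let `G = {i | c i = 0}` and
`U = {j | ∀ B ∈ R j, ∃ i ∈ B, c i ≠ 0}`. The restriction of `C` to `G ∪ U` is injective: if `x ∈ C`
vanishes on `G ∪ U` and `j ∉ U`, there is `B ∈ R j` with `c = 0` on `B`, so `B ⊆ G`, `x = 0` on `B`,
`x j = 0`. So `finrank C ≤ |G| + |U|` (`LinearMap.finrank_le_finrank_of_injective`,
`LinearMap.funLeft`). Sum over all `c`: `∑ |G| = ∑ i, #{c | c i = 0} = n (q+1)^n / (q+1)` (`rec_card` with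
`Y = {i}`), `∑ |U| ≤ n (q+1)^n (1 - (1/(q+1))^K)^r` (`rec_indep`, `pow_le_pow_of_le_one`, `r ≤ |R j|`).
Divide by `(q+1)^n`. -/
theorem rec_bound (q K r : ℕ) (C : Submodule (ZMod 2) (ι → ZMod 2)) (R : ι → Finset (Finset ι))
    (hd : ∀ j, ∀ B ∈ R j, ∀ B' ∈ R j, B ≠ B' → Disjoint B B') (hK : ∀ j, ∀ B ∈ R j, B.card ≤ K)
    (hr : ∀ j, r ≤ (R j).card)
    (hC : ∀ j, ∀ B ∈ R j, ∀ x ∈ C, (∀ i ∈ B, x i = 0) → x j = 0) :
    (finrank (ZMod 2) C : ℝ) ≤
      Fintype.card ι * (1 / (q + 1 : ℝ) + (1 - (1 / (q + 1 : ℝ)) ^ K) ^ r) := by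
  obtain ⟨N, hN⟩ : ∃ N : ℝ, N = (q + 1 : ℝ) ^ Fintype.card ι := ⟨_, rfl⟩
  have hN0 : 0 < N := by rw [hN]; positivity
  obtain ⟨θ, hθ⟩ : ∃ θ : ℝ, θ = 1 - (1 / (q + 1 : ℝ)) ^ K := ⟨_, rfl⟩
  have hq1 : (1 / (q + 1 : ℝ)) ≤ 1 := by
    rw [div_le_one (by positivity)]
    have : (0 : ℝ) ≤ q := by positivity
    linarith
  have hθ0 : 0 ≤ θ := by
    rw [hθ]
    have := pow_le_one₀ (n := K) (by positivity) hq1
    linarith
  have hθ1 : θ ≤ 1 := by
    rw [hθ]
    have : 0 ≤ (1 / (q + 1 : ℝ)) ^ K := by positivity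
    linarith
  have hsum : ∑ _c : ι → Fin (q + 1), (finrank (ZMod 2) C : ℝ) ≤
      ∑ c : ι → Fin (q + 1), ((((univ : Finset ι).filter fun i => c i = 0).card : ℝ) +
      ((univ : Finset ι).filter fun j => ∀ B ∈ R j, ∃ i ∈ B, c i ≠ 0).card) :=
    Finset.sum_le_sum fun c _ => recBound_inj q C R hC c
  rw [Finset.sum_const, nsmul_eq_mul, Finset.sum_add_distrib] at hsum
  have hcard : ((univ : Finset (ι → Fin (q + 1))).card : ℝ) = N := by
    rw [Finset.card_univ, Fintype.card_fun, Fintype.card_fin, hN]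
    push_cast
    rfl
  have hG : ∑ c : ι → Fin (q + 1), (((univ : Finset ι).filter fun i => c i = 0).card : ℝ) =
      Fintype.card ι * (N * (1 / (q + 1 : ℝ))) := by
    have h1 : ∀ c : ι → Fin (q + 1), (((univ : Finset ι).filter fun i => c i = 0).card : ℝ) =
        ∑ i : ι, if c i = 0 then (1 : ℝ) else 0 := fun c => by
      rw [Finset.natCast_card_filter]
    rw [Finset.sum_congr rfl fun c _ => h1 c, Finset.sum_comm]
    have h2 : ∀ i : ι, ∑ c : ι → Fin (q + 1), (if c i = 0 then (1 : ℝ) else 0) =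
        N * (1 / (q + 1 : ℝ)) := by
      intro i
      have h3 := rec_card q ({i} : Finset ι)
      rw [Finset.natCast_card_filter] at h3
      simp only [Finset.mem_singleton, forall_eq, Finset.card_singleton, pow_one] at h3
      rw [hN]
      exact h3
    rw [Finset.sum_congr rfl fun i _ => h2 i, Finset.sum_const, nsmul_eq_mul, Finset.card_univ]
  have hU : ∑ c : ι → Fin (q + 1),
      (((univ : Finset ι).filter fun j => ∀ B ∈ R j, ∃ i ∈ B, c i ≠ 0).card : ℝ) ≤
      Fintype.card ι * (N * θ ^ r) := by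
    have h1 : ∀ c : ι → Fin (q + 1),
        (((univ : Finset ι).filter fun j => ∀ B ∈ R j, ∃ i ∈ B, c i ≠ 0).card : ℝ) =
        ∑ j : ι, if ∀ B ∈ R j, ∃ i ∈ B, c i ≠ 0 then (1 : ℝ) else 0 := fun c => by
      rw [Finset.natCast_card_filter]
    rw [Finset.sum_congr rfl fun c _ => h1 c, Finset.sum_comm]
    have h2 : ∀ j : ι, ∑ c : ι → Fin (q + 1),
        (if ∀ B ∈ R j, ∃ i ∈ B, c i ≠ 0 then (1 : ℝ) else 0) ≤ N * θ ^ r := by
      intro j
      have h3 := rec_indep q K (R j) (hd j) (hK j)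
      rw [Finset.natCast_card_filter, ← hN, ← hθ] at h3
      refine h3.trans (mul_le_mul_of_nonneg_left ?_ hN0.le)
      exact pow_le_pow_of_le_one hθ0 hθ1 (hr j)
    refine (Finset.sum_le_sum fun j _ => h2 j).trans (le_of_eq ?_)
    rw [Finset.sum_const, nsmul_eq_mul, Finset.card_univ]
  rw [hcard, hG] at hsum
  rw [← hθ]
  have h5 : N * (finrank (ZMod 2) C : ℝ) ≤
      N * (Fintype.card ι * (1 / (q + 1 : ℝ) + θ ^ r)) := by
    refine hsum.trans ?_
    have e : N * (Fintype.card ι * (1 / (q + 1 : ℝ) + θ ^ r)) =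
      Fintype.card ι * (N * (1 / (q + 1 : ℝ))) + Fintype.card ι * (N * θ ^ r) := by ring
    rw [e]
    linarith
  exact le_of_mul_le_mul_left h5 hN0

end recov

/-- PROOF. Choose `q` with `1 / (q + 1) ≤ δ / 2` and `r0` with `(1 - (1/(q+1))^K)^r0 ≤ δ / 2`
(`exists_pow_lt_of_lt_one`, the base is in `[0, 1)`); the power is antitone in `r`. -/
theorem rec_lim (K : ℕ) (δ : ℝ) (hδ : 0 < δ) : ∃ q r0 : ℕ, ∀ r, r0 ≤ r →
    1 / (q + 1 : ℝ) + (1 - (1 / (q + 1 : ℝ)) ^ K) ^ r ≤ δ := by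
  have hδ2 : (0 : ℝ) < δ / 2 := by positivity
  obtain ⟨q, hq⟩ := exists_nat_one_div_lt hδ2
  have h0 : (0 : ℝ) < 1 / ((q : ℝ) + 1) := by positivity
  have h1 : 1 / ((q : ℝ) + 1) ≤ 1 := by
    rw [div_le_one (by positivity)]
    have : (0 : ℝ) ≤ q := Nat.cast_nonneg q
    linarith
  have hb0 : 0 ≤ 1 - (1 / ((q : ℝ) + 1)) ^ K := by
    have := pow_le_one₀ (n := K) h0.le h1
    linarith
  have hb1 : 1 - (1 / ((q : ℝ) + 1)) ^ K < 1 := by
    have := pow_pos h0 K
    linarith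
  obtain ⟨r0, hr0⟩ := exists_pow_lt_of_lt_one hδ2 hb1
  refine ⟨q, r0, fun r hr => ?_⟩
  have h2 := pow_le_pow_of_le_one hb0 hb1.le hr
  linarith

end Pool.Agent.Helper81.SBA
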