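import Pool.Agent.Helper81.SBA.Fi
import Pool.Agent.Helper81.SBA.V.Rec

/-!
# The asymptotic lower bounds for the number of double and triple points
-/

set_option autoImplicit false

open Finset Module

namespace Pool.Agent.Helper81.SBA

variable {m : ℕ}

/-- The recovery sets of the line `s`: the other lines through the points of `s`. -/
def recs (l : List (Pt m)) (s : Fin (m + 1)) : Finset (Finset (Fin (m + 1))) :=
  ((univ : Finset (Fin l.length)).filter fun j => s ∈ blk (l.get j)).image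
    fun j => (blk (l.get j)).erase s

private theorem sbaV4_mem {l : List (Pt m)} {s : Fin (m + 1)} {B : Finset (Fin (m + 1))}
    (hB : B ∈ recs l s) : ∃ j : Fin l.length, s ∈ blk (l.get j) ∧ (blk (l.get j)).erase s = B := by
  obtain ⟨j, hj, h⟩ := Finset.mem_image.1 hB
  exact ⟨j, (Finset.mem_filter.1 hj).2, h⟩

/-- PROOF. `B = blk P \ {s}`, `B' = blk P' \ {s}` with `P`, `P'` the points `j ≠ j'`; a common line
`t ≠ s` would be with `s` in two points (`pair_unique`). -/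
theorem recs_disj {l : List (Pt m)} (hl : IsArr m l) (s : Fin (m + 1)) :
    ∀ B ∈ recs l s, ∀ B' ∈ recs l s, B ≠ B' → Disjoint B B' := by
  intro B hB B' hB' hne
  obtain ⟨j, hj, rfl⟩ := sbaV4_mem hB
  obtain ⟨j', hj', rfl⟩ := sbaV4_mem hB'
  rw [Finset.disjoint_left]
  intro t ht ht'
  rw [Finset.mem_erase] at ht ht'
  apply hne
  have h1 : j = j' := (pair_unique hl s t (Ne.symm ht.1)).unique ⟨hj, ht.2⟩ ⟨hj', ht'.2⟩
  rw [h1]

/-- PROOF. `card_blk`, `Finset.card_erase_of_mem`, `k ≤ 4`. -/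
theorem recs_card_le {l : List (Pt m)} (hl : IsArr m l) (h4 : ∀ P ∈ l, P.k ≤ 4) (s : Fin (m + 1)) :
    ∀ B ∈ recs l s, B.card ≤ 3 := by
  intro B hB
  obtain ⟨j, hj, rfl⟩ := sbaV4_mem hB
  have h1 := h4 _ (List.get_mem l j)
  rw [Finset.card_erase_of_mem hj, card_blk _ (hl.1 _ (List.get_mem l j)).2]
  omega

/-- PROOF. The other `m` lines are the union of the sets of `recs l s` (`pair_unique`), each of which has
at most three elements: `m ≤ 3 * (recs l s).card` (`Finset.card_biUnion_le` or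
`Finset.card_le_mul_card_image`). -/
theorem recs_card {l : List (Pt m)} (hl : IsArr m l) (h4 : ∀ P ∈ l, P.k ≤ 4) (s : Fin (m + 1)) :
    m / 3 ≤ (recs l s).card := by
  have h1 : (Finset.univ.erase s : Finset (Fin (m + 1))) ⊆ (recs l s).biUnion id := by
    intro t ht
    obtain ⟨j, ⟨h2, h3⟩, -⟩ := pair_unique hl s t (Ne.symm (Finset.ne_of_mem_erase ht))
    refine Finset.mem_biUnion.2 ⟨(blk (l.get j)).erase s, ?_, ?_⟩
    · exact Finset.mem_image.2 ⟨j, Finset.mem_filter.2 ⟨Finset.mem_univ _, h2⟩, rfl⟩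
    · exact Finset.mem_erase.2 ⟨Finset.ne_of_mem_erase ht, h3⟩
  have h2 : (Finset.univ.erase s : Finset (Fin (m + 1))).card = m := by
    rw [Finset.card_erase_of_mem (Finset.mem_univ _), Finset.card_univ, Fintype.card_fin,
      Nat.add_sub_cancel]
  have h3 := Finset.card_le_card h1
  rw [h2] at h3
  have h5 : ((recs l s).biUnion id).card ≤ (recs l s).card * 3 :=
    Finset.card_biUnion_le_card_mul _ _ _ fun B hB => recs_card_le hl h4 s B hB
  omega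

/-- PROOF. `B = (blk P).erase s`, `s ∈ blk P`. If `P.k = 3`, there is `i ∈ B` (`card_blk`, `2 ≤ k`) and
`x s = x i = 0`. Otherwise the sum of `x` over `blk P` is `0` and equal to `x s`
(`Finset.add_sum_erase`). -/
theorem recs_code {l : List (Pt m)} (hl : IsArr m l) (s : Fin (m + 1)) :
    ∀ B ∈ recs l s, ∀ x ∈ code l, (∀ i ∈ B, x i = 0) → x s = 0 := by
  intro B hB x hx h0
  obtain ⟨j, hj, rfl⟩ := sbaV4_mem hB
  have hP : ((l.get j).k ≠ 3 → ∑ t ∈ blk (l.get j), x t = 0) ∧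
      ((l.get j).k = 3 → ∀ s ∈ blk (l.get j), ∀ t ∈ blk (l.get j), x s = x t) :=
    hx _ (List.get_mem l j)
  have h1 := hl.1 _ (List.get_mem l j)
  by_cases hk : (l.get j).k = 3
  · have h2 : 0 < ((blk (l.get j)).erase s).card := by
      rw [Finset.card_erase_of_mem hj, card_blk _ h1.2]
      omega
    obtain ⟨i, hi⟩ := Finset.card_pos.1 h2
    rw [hP.2 hk s hj i (Finset.mem_of_mem_erase hi)]
    exact h0 i hi
  · have h2 := hP.1 hk
    rw [← Finset.add_sum_erase _ _ hj, Finset.sum_eq_zero h0, add_zero] at h2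
    exact h2

/-- PROOF. `rec_lim` with `K = 3`, `rec_bound` with `R = recs l`, `r = m / 3`; `N = 3 * r0`. -/
theorem code_small (δ : ℝ) (hδ : 0 < δ) : ∃ N : ℕ, ∀ m : ℕ, N ≤ m → ∀ l : List (Pt m), IsArr m l →
    (∀ P ∈ l, P.k ≤ 4) → (finrank (ZMod 2) (code l) : ℝ) ≤ δ * (m + 1) := by
  obtain ⟨q, r0, h⟩ := rec_lim 3 δ hδ
  refine ⟨3 * r0, fun m hm l hl h4 => ?_⟩
  have h1 := rec_bound q 3 (m / 3) (code l) (recs l) (recs_disj hl) (recs_card_le hl h4)
    (recs_card hl h4) (recs_code hl)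
  rw [Fintype.card_fin] at h1
  have h2 := h (m / 3) (by omega)
  have h3 : (0 : ℝ) ≤ ((m + 1 : ℕ) : ℝ) := Nat.cast_nonneg _
  have h4 := mul_le_mul_of_nonneg_left h2 h3
  refine h1.trans (h4.trans (le_of_eq ?_))
  push_cast
  ring

/-- PROOF. `code_small` with `δ = ε / 4`; `m + 1 = 2 e`, `even_ineq`: `3 e ≤ T + 2 + 2 κ`, so
`T ≥ (3/2) (m + 1) - 2 - (ε / 2) (m + 1)`; `m + 1 ≥ 4 / ε`, `m + 1 ≥ 4`. -/
theorem T_even (ε : ℝ) (hε : 0 < ε) : ∃ N : ℕ, ∀ m : ℕ, N ≤ m → Even (m + 1) →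
    ∀ l : List (Pt m), IsArr m l → (∀ P ∈ l, P.k ≤ 4) →
      (3 / 2 - ε) * (m + 1) ≤ (tk l 2 : ℝ) + tk l 3 := by
  obtain ⟨N0, hN0⟩ := code_small (ε / 4) (by positivity)
  obtain ⟨N1, hN1⟩ := exists_nat_ge (4 / ε)
  refine ⟨max N0 (max 3 N1), fun m hm he l hl h4 => ?_⟩
  have hm0 : N0 ≤ m := (le_max_left _ _).trans hm
  have hm3 : 3 ≤ m := ((le_max_left _ _).trans (le_max_right _ _)).trans hm
  have hm1 : N1 ≤ m := ((le_max_right _ _).trans (le_max_right _ _)).trans hm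
  obtain ⟨e, he⟩ := he
  have h1 := even_ineq (e := e) (by omega) (by omega) hl h4
  have h2 := hN0 m hm0 l hl h4
  have h3 : (3 : ℝ) * e ≤ tk l 2 + tk l 3 + 2 + 2 * (finrank (ZMod 2) (code l) : ℝ) := by
    exact_mod_cast h1
  have h5 : ((m : ℝ) + 1) = 2 * e := by
    have : ((m + 1 : ℕ) : ℝ) = ((e + e : ℕ) : ℝ) := by rw [he]
    push_cast at this
    linarith
  have h6 : 4 / ε ≤ (m : ℝ) := hN1.trans (by exact_mod_cast hm1)
  rw [div_le_iff₀ hε] at h6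
  nlinarith

/-- PROOF. `m = m' + 1`; `T_even` with `ε / 2` for `dropL 0 l` (`drop_arr`; multiplicities at most 4):
`T' ≥ (3/2 - ε/2) (m' + 1)`. `tk_dropL`: `T' + rk l 0 2 = T + rk l 0 4`, and `3 * rk l 0 4 ≤ m`
(`line_rk`). So `T ≥ (3/2 - ε/2) m - m / 3 = (7/6 - ε/2) m ≥ (7/6 - ε) (m + 1)` for large `m`. -/
theorem T_odd (ε : ℝ) (hε : 0 < ε) : ∃ N : ℕ, ∀ m : ℕ, N ≤ m → Odd (m + 1) →
    ∀ l : List (Pt m), IsArr m l → (∀ P ∈ l, P.k ≤ 4) →
      (7 / 6 - ε) * (m + 1) ≤ (tk l 2 : ℝ) + tk l 3 := by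
  obtain ⟨N0, hN0⟩ := T_even (ε / 2) (by positivity)
  obtain ⟨N1, hN1⟩ := exists_nat_ge (4 / ε)
  refine ⟨N0 + N1 + 1, fun m hm ho l hl h4 => ?_⟩
  obtain ⟨m', rfl⟩ : ∃ m', m = m' + 1 := ⟨m - 1, by omega⟩
  have hl' : IsArr m' (dropL 0 l) := drop_arr hl 0
  have h4' : ∀ P ∈ dropL 0 l, P.k ≤ 4 := by
    intro P hP
    obtain ⟨Q, hQ, rfl⟩ := List.mem_map.1 hP
    have hQ4 := h4 Q (List.mem_filter.1 hQ).1
    change (if 0 ∈ blk Q then Q.k - 1 else Q.k) ≤ 4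
    split_ifs <;> omega
  have he : Even (m' + 1) := by
    rw [Nat.odd_add_one, Nat.not_odd_iff_even] at ho
    exact ho
  have h1 := hN0 m' (by omega) he (dropL 0 l) hl' h4'
  have h2 := tk_dropL 0 hl h4
  have h3 := line_rk hl h4 0
  have h5 : (tk (dropL 0 l) 2 : ℝ) + tk (dropL 0 l) 3 + rk l 0 2 = tk l 2 + tk l 3 + rk l 0 4 := by
    exact_mod_cast h2
  have h6 : (rk l 0 2 : ℝ) + 2 * rk l 0 3 + 3 * rk l 0 4 = m' + 1 := by
    exact_mod_cast h3
  have h7 : (0 : ℝ) ≤ rk l 0 2 := Nat.cast_nonneg _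
  have h8 : (0 : ℝ) ≤ rk l 0 3 := Nat.cast_nonneg _
  have h9 : 4 / ε ≤ (m' : ℝ) := hN1.trans (by
    have : N1 ≤ m' := by omega
    exact_mod_cast this)
  rw [div_le_iff₀ hε] at h9
  push_cast
  nlinarith

end Pool.Agent.Helper81.SBA
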